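import Pool.Agent.U41.OD.Stm2

/-! Project OD (helper41), package SM (helper594): smoothness of the members of the pencil. -/

set_option autoImplicit false

namespace Pool.Agent.U41.OD

open Pool.Agent.H918R2.Quad Pool.Agent.TH214.RM MvPolynomial

theorem SM_ok : S_SM := by
  classical
  intro K _ _ n d G c hd hG hsect hone
  set Gc : MvPolynomial (Fin (n + 2)) K := G + C c * X 0 ^ d with hGc
  have hGch : Gc.IsHomogeneous d := by
    rw [hGc]
    refine hG.add ?_
    have h1 : (C c * X 0 ^ d : MvPolynomial (Fin (n + 2)) K).IsHomogeneous (0 + d) := by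
      refine (isHomogeneous_C _ c).mul ?_
      simpa using (isHomogeneous_X K (0 : Fin (n + 2))).pow d
    simpa using h1
  have hpd : ∀ j : Fin (n + 2), j ≠ 0 → pderiv j Gc = pderiv j G := by
    intro j hj
    rw [hGc, map_add]
    have h1 : pderiv j (C c * X 0 ^ d : MvPolynomial (Fin (n + 2)) K) = 0 := by
      rw [pderiv_C_mul, pderiv_pow, pderiv_X_of_ne (Ne.symm hj), mul_zero, mul_zero]
    rw [h1, add_zero]
  have hdeh : deh 0 Gc = deh 0 G + C c := by
    rw [hGc]
    unfold deh
    rw [map_add, map_mul, map_pow, aeval_X]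
    have h1 : (tau 0 0 : MvPolynomial {j : Fin (n + 2) // j ≠ 0} K) = 1 := by
      unfold tau
      rw [dif_pos rfl]
    rw [h1, one_pow, mul_one, aeval_C, algebraMap_eq]
  intro i
  rw [Ideal.radical_eq_sInf, Submodule.mem_sInf]
  intro P' hP'
  obtain ⟨P, rfl⟩ : ∃ P : Ideal (MvPolynomial (Fin (n + 2)) K), P = P' := ⟨P', rfl⟩
  obtain ⟨hP, hPp⟩ := hP'
  have hP1 : ∀ j, pderiv j Gc ∈ P := fun j => hP (Ideal.subset_span ⟨j, rfl⟩)
  -- Euler
  have hGP : Gc ∈ P := by
    have h1 := hGch.sum_X_mul_pderiv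
    have h2 : (d • Gc) ∈ P := by
      rw [← h1]
      exact P.sum_mem fun j _ => P.mul_mem_left _ (hP1 j)
    have h3 : Gc = C ((d : K)⁻¹) * (d • Gc) := by
      rw [nsmul_eq_mul, ← mul_assoc, ← map_natCast (C : K →+* MvPolynomial (Fin (n + 2)) K) d,
        ← map_mul, inv_mul_cancel₀ (Nat.cast_ne_zero.2 (by omega)), map_one, one_mul]
    rw [h3]
    exact P.mul_mem_left _ h2
  by_cases hX : (X 0 : MvPolynomial (Fin (n + 2)) K) ∈ P
  · by_cases hi : i = 0
    · rw [hi]
      exact hX
    · have hG0 : G ∈ P := by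
        have h1 : G = Gc - C c * X 0 ^ d := by rw [hGc]; ring
        rw [h1]
        refine P.sub_mem hGP (P.mul_mem_left _ ?_)
        exact Ideal.pow_mem_of_mem P hX d (by omega)
      have h2 : (Ideal.span (insert (X 0) (insert G (Set.range fun j : {j : Fin (n + 2) // j ≠ 0} =>
          pderiv (j : Fin (n + 2)) G)))) ≤ P := by
        rw [Ideal.span_le]
        intro y hy
        rcases Set.mem_insert_iff.1 hy with rfl | hy
        · exact hX
        · rcases Set.mem_insert_iff.1 hy with rfl | ⟨j, rfl⟩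
          · exact hG0
          · have h3 := hP1 j
            rw [hpd j j.2] at h3
            exact h3
      have h3 := Ideal.radical_mono h2 (hsect i hi)
      rwa [hPp.radical] at h3
  · exfalso
    have := hPp
    let A := MvPolynomial (Fin (n + 2)) K ⧸ P
    let L := FractionRing A
    let ψ : MvPolynomial (Fin (n + 2)) K →ₐ[K] L :=
      (IsScalarTower.toAlgHom K A L).comp (Ideal.Quotient.mkₐ K P)
    have hψ0 : ∀ Q, ψ Q = 0 ↔ Q ∈ P := by
      intro Q
      have h1 : ψ Q = algebraMap A L (Ideal.Quotient.mk P Q) := rfl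
      rw [h1, map_eq_zero_iff _ (IsFractionRing.injective A L), Ideal.Quotient.eq_zero_iff_mem]
    have hx0 : ψ (X 0) ≠ 0 := fun h => hX ((hψ0 _).1 h)
    set v : L := (ψ (X 0))⁻¹ with hv
    let t : Fin (n + 2) → L := fun j => ψ (X j) * v
    have ht0 : t 0 = 1 := mul_inv_cancel₀ hx0
    let φ : MvPolynomial {j : Fin (n + 2) // j ≠ 0} K →ₐ[K] L :=
      aeval fun j : {j : Fin (n + 2) // j ≠ 0} => t j
    have key : ∀ (Q : MvPolynomial (Fin (n + 2)) K) (N : ℕ), Q.IsHomogeneous N → Q ∈ P →
        φ (deh 0 Q) = 0 := by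
      intro Q N hQ hQP
      have h1 : φ (deh 0 Q) = aeval t Q := aeval_deh 0 t ht0 Q
      have h2 : aeval t Q = aeval (fun j => ψ (X j)) Q * v ^ N :=
        aeval_scale (fun j => ψ (X j)) v N Q hQ
      have h3 : (aeval fun j => ψ (X j)) = ψ := by
        apply MvPolynomial.algHom_ext
        intro j
        rw [aeval_X]
      rw [h1, h2, h3, (hψ0 Q).2 hQP, zero_mul]
    have hker : Ideal.span (insert (deh 0 G + C c) (Set.range fun j => pderiv j (deh 0 G))) ≤
        RingHom.ker φ := by
      rw [Ideal.span_le]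
      intro y hy
      rcases Set.mem_insert_iff.1 hy with rfl | ⟨j, rfl⟩
      · have h1 := key Gc d hGch hGP
        rw [hdeh] at h1
        exact h1
      · have h1 := key (pderiv (j : Fin (n + 2)) Gc) (d - 1) hGch.pderiv (hP1 j)
        rw [hpd j j.2, ← pderiv_deh] at h1
        exact h1
    have h1 : φ 1 = 0 := hker hone
    rw [map_one] at h1
    exact one_ne_zero h1

end Pool.Agent.U41.OD
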